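import Pool.Agent.Helper69.RF.Bas

/-!
# Project RF, module DET
-/

set_option autoImplicit false

open Polynomial Helper62.Weber

namespace Pool.Agent.Helper2.RF

open Pool.Agent.Helper69.RF

private lemma det_bound {s : ℕ} (A : Matrix (Fin s) (Fin s) ℤ) :
    |A.det| ≤ ∏ i, ∑ j, |A i j| := by
  classical
  rw [← Matrix.det_transpose, Matrix.det_apply']
  have h1 : |∑ σ : Equiv.Perm (Fin s), ((Equiv.Perm.sign σ : ℤˣ) : ℤ) * ∏ i, A.transpose (σ i) i| ≤
      ∑ σ : Equiv.Perm (Fin s), ∏ i, |A i (σ i)| := by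
    refine (Finset.abs_sum_le_sum_abs _ _).trans (Finset.sum_le_sum fun σ _ => ?_)
    rw [abs_mul, Finset.abs_prod]
    have h2 : |((Equiv.Perm.sign σ : ℤˣ) : ℤ)| = 1 := by
      rcases Int.units_eq_one_or (Equiv.Perm.sign σ) with h | h <;> rw [h] <;> simp
    rw [h2, one_mul]
    exact le_of_eq rfl
  refine le_trans (by simpa using h1) ?_
  rw [Finset.prod_univ_sum, Fintype.piFinset_univ]
  have h3 : ∑ σ : Equiv.Perm (Fin s), ∏ i, |A i (σ i)| =
      ∑ f ∈ Finset.univ.image (fun σ : Equiv.Perm (Fin s) => (σ : Fin s → Fin s)), ∏ i, |A i (f i)| := by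
    rw [Finset.sum_image]
    intro σ _ τ _ h
    exact DFunLike.coe_injective h
  rw [h3]
  exact Finset.sum_le_sum_of_subset_of_nonneg (Finset.subset_univ _)
    (fun f _ _ => Finset.prod_nonneg fun i _ => abs_nonneg _)

theorem cDET : DET := by
  classical
  intro s m k R hR1 hR2 hR3 hk
  obtain ⟨i0, hi0⟩ := hk
  let ca : (Fin s → ℤ) → (Fin s → ℚ) := fun r i => (r i : ℚ)
  have hspan : Submodule.span ℚ (ca '' R) = ⊤ := by
    by_contra hne
    obtain ⟨f, hf0, hf⟩ := Submodule.exists_le_ker_of_lt_top _ (lt_top_iff_ne_top.2 hne)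
    apply hf0
    have hl := hR3 (fun i => f (Pi.single i 1)) (by
      intro r hr
      have h1 : f (ca r) = 0 := by
        have h2 : ca r ∈ Submodule.span ℚ (ca '' R) := Submodule.subset_span ⟨r, hr, rfl⟩
        exact LinearMap.mem_ker.1 (hf h2)
      have h3 : f (ca r) = ∑ i, ca r i • f (Pi.single i 1) := by
        conv_lhs => rw [pi_eq_sum_univ' (ca r)]
        rw [map_sum]
        apply Finset.sum_congr rfl
        intro i _
        rw [map_smul]
      rw [h3] at h1
      simpa [ca, smul_eq_mul] using h1)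
    apply LinearMap.pi_ext'
    intro i
    apply LinearMap.ext_ring
    have := congrFun hl i
    simpa using this
  obtain ⟨b, hbt, hbs, hbl⟩ := exists_linearIndependent ℚ (ca '' R)
  rw [hspan] at hbs
  let B : Module.Basis b ℚ (Fin s → ℚ) := Module.Basis.mk hbl (by rw [Subtype.range_coe, hbs])
  have hfin : Finite b := Module.Finite.finite_basis B
  have hcard : Nat.card b = s := by
    have := Module.finrank_eq_nat_card_basis B
    rw [Module.finrank_fin_fun] at this
    exact this.symm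
  have e : Fin s ≃ b := (Finite.equivFinOfCardEq hcard).symm
  have hch : ∀ i : Fin s, ∃ r ∈ R, ca r = (e i : Fin s → ℚ) := by
    intro i
    obtain ⟨r, hr, h⟩ := hbt (e i).2
    exact ⟨r, hr, h⟩
  choose A hAR hAe using hch
  let M : Matrix (Fin s) (Fin s) ℤ := Matrix.of A
  have hdet : M.det ≠ 0 := by
    have h1 : LinearIndependent ℚ (M.map (Int.castRingHom ℚ)).row := by
      have h2 : LinearIndependent ℚ (fun i : Fin s => (e i : Fin s → ℚ)) := hbl.comp e e.injective
      have h3 : (M.map (Int.castRingHom ℚ)).row = fun i : Fin s => (e i : Fin s → ℚ) := by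
        funext i j
        rw [← hAe i]
        rfl
      rw [h3]
      exact h2
    rw [Matrix.linearIndependent_rows_iff_isUnit, Matrix.isUnit_iff_isUnit_det] at h1
    intro h0
    have h4 : (M.map (Int.castRingHom ℚ)).det = ((M.det : ℤ) : ℚ) := by
      rw [show M.map (Int.castRingHom ℚ) = (Int.castRingHom ℚ).mapMatrix M from rfl, ← RingHom.map_det]
      rfl
    rw [h4, h0] at h1
    simp at h1
  have hmv : ∀ j, (2 : ℤ) ^ m ∣ (M.mulVec k) j := by
    intro j
    exact hR2 (A j) (hAR j)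
  have hdvd : (2 : ℤ) ^ m ∣ M.det * k i0 := by
    have h1 : M.adjugate.mulVec (M.mulVec k) = M.det • k := by
      rw [Matrix.mulVec_mulVec, Matrix.adjugate_mul, Matrix.smul_mulVec, Matrix.one_mulVec]
    have h2 := congrFun h1 i0
    rw [Pi.smul_apply, smul_eq_mul] at h2
    rw [← h2]
    have h3 : M.adjugate.mulVec (M.mulVec k) i0 = ∑ j, M.adjugate i0 j * M.mulVec k j := rfl
    rw [h3]
    exact Finset.dvd_sum fun j _ => Dvd.dvd.mul_left (hmv j) _
  have hdvd' : (2 : ℤ) ^ m ∣ M.det := by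
    apply IsCoprime.dvd_of_dvd_mul_right _ hdvd
    apply IsCoprime.pow_left
    rw [Int.isCoprime_iff_gcd_eq_one]
    obtain ⟨c, hc⟩ := hi0
    rw [hc]
    have : IsCoprime (2 : ℤ) (2 * c + 1) := ⟨-c, 1, by ring⟩
    exact Int.isCoprime_iff_gcd_eq_one.1 this
  have h1 : (2 : ℤ) ^ m ≤ |M.det| := by
    apply Int.le_of_dvd (abs_pos.2 hdet)
    exact (dvd_abs _ _).2 hdvd'
  have h2 : |M.det| ≤ 4 ^ s := by
    refine (det_bound M).trans ?_
    calc ∏ i, ∑ j, |M i j| ≤ ∏ _i : Fin s, (4 : ℤ) :=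
          Finset.prod_le_prod (fun i _ => Finset.sum_nonneg fun j _ => abs_nonneg _)
            (fun i _ => hR1 (A i) (hAR i))
      _ = 4 ^ s := by simp
  exact_mod_cast h1.trans h2

end Pool.Agent.Helper2.RF
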