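import Pool.Agent.Helper69.RF.Bas

/-!
# Project RF, module GRD
-/

set_option autoImplicit false

open Polynomial Helper62.Weber

namespace Pool.Agent.Helper2.RF

open Pool.Agent.Helper69.RF

private lemma sign_ex (t : ℤ) : ∃ s : ℤ, s ≠ 0 ∧ (-1 : ℂ) ^ t = s := by
  rcases Int.even_or_odd t with h | h
  · exact ⟨1, one_ne_zero, by rw [h.neg_one_zpow]; simp⟩
  · exact ⟨-1, by norm_num, by rw [h.neg_one_zpow]; simp⟩

private lemma zred (N : ℕ) (z : ℂ) (hN : 1 ≤ N) (hz : z ^ N = -1) (t : ℤ) :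
    ∃ s : ℤ, s ≠ 0 ∧ z ^ t = s * z ^ ((t % N).toNat) := by
  have hz0 : z ≠ 0 := by
    rintro rfl
    rw [zero_pow (by omega)] at hz
    exact absurd hz (by norm_num)
  have hN' : (N : ℤ) ≠ 0 := by omega
  obtain ⟨s, hs, h⟩ := sign_ex (t / N)
  refine ⟨s, hs, ?_⟩
  have h1 : z ^ ((t % N).toNat) = z ^ (t % N) := by
    rw [← zpow_natCast, Int.toNat_of_nonneg (Int.emod_nonneg _ hN')]
  have h2 : (-1 : ℂ) ^ (t / N) = z ^ ((N : ℤ) * (t / N)) := by
    rw [zpow_mul, zpow_natCast, hz]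
  rw [h1, ← h, h2, ← zpow_add₀ hz0, Int.mul_ediv_add_emod]

private lemma fib {ι : Type} (N : ℕ) (z : ℂ) (hN : 1 ≤ N) (sg : ℤ → ℤ)
    (hsg : ∀ t : ℤ, z ^ t = sg t * z ^ ((t % N).toNat)) (I : Finset ι) (w e : ι → ℤ) :
    ∑ i ∈ I, (w i : ℂ) * z ^ (e i) =
      ∑ ρ ∈ Finset.range N, ((∑ i ∈ I with (e i % N).toNat = ρ, w i * sg (e i) : ℤ) : ℂ) * z ^ ρ := by
  have hN' : (N : ℤ) ≠ 0 := by omega
  rw [← Finset.sum_fiberwise_of_maps_to (s := I) (t := Finset.range N) (g := fun i => (e i % N).toNat)]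
  · apply Finset.sum_congr rfl
    intro ρ _
    rw [Int.cast_sum, Finset.sum_mul]
    apply Finset.sum_congr rfl
    intro i hi
    rw [hsg, (Finset.mem_filter.1 hi).2]
    push_cast
    ring
  · intro i _
    rw [Finset.mem_range]
    have h1 := Int.emod_lt_of_pos (e i) (show (0 : ℤ) < N by omega)
    have h2 := Int.emod_nonneg (e i) hN'
    omega

private lemma coef {ι : Type} (N : ℕ) (z : ℂ) (hN : 1 ≤ N)
    (hind : ∀ c : ℕ → ℤ, ∑ k ∈ Finset.range N, (c k : ℂ) * z ^ k = 0 → ∀ k < N, c k = 0) (sg : ℤ → ℤ)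
    (hsg : ∀ t : ℤ, z ^ t = sg t * z ^ ((t % N).toNat)) (I : Finset ι) (w e : ι → ℤ) (c : ℤ)
    (h : ∑ i ∈ I, (w i : ℂ) * z ^ (e i) = c) :
    ∀ ρ < N, ∑ i ∈ I with (e i % N).toNat = ρ, w i * sg (e i) = if ρ = 0 then c else 0 := by
  rw [fib N z hN sg hsg] at h
  have h1 := hind (fun ρ => (∑ i ∈ I with (e i % N).toNat = ρ, w i * sg (e i)) - if ρ = 0 then c else 0) (by
    have h2 : ∑ ρ ∈ Finset.range N, ((if ρ = 0 then c else 0 : ℤ) : ℂ) * z ^ ρ = c := by
      rw [Finset.sum_eq_single 0]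
      · simp
      · intro b _ hb
        simp [hb]
      · intro h0
        exact absurd (Finset.mem_range.2 (by omega)) h0
    calc _ = ∑ ρ ∈ Finset.range N, (((∑ i ∈ I with (e i % N).toNat = ρ, w i * sg (e i) : ℤ) : ℂ) * z ^ ρ -
          ((if ρ = 0 then c else 0 : ℤ) : ℂ) * z ^ ρ) := by
            apply Finset.sum_congr rfl
            intro ρ _
            push_cast
            ring
      _ = 0 := by rw [Finset.sum_sub_distrib, h, h2, sub_self])
  intro ρ hρ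
  have := h1 ρ hρ
  linarith

private lemma ne_zero_of (N : ℕ) (z : ℂ) (hN : 1 ≤ N)
    (hind : ∀ c : ℕ → ℤ, ∑ k ∈ Finset.range N, (c k : ℂ) * z ^ k = 0 → ∀ k < N, c k = 0) (sg : ℤ → ℤ)
    (hsg0 : ∀ t, sg t ≠ 0)
    (hsg : ∀ t : ℤ, z ^ t = sg t * z ^ ((t % N).toNat)) (I : Finset ℤ) (w : ℤ → ℤ)
    (hI : ∀ t ∈ I, ∀ t' ∈ I, (N : ℤ) ∣ t - t' → t = t') (t : ℤ) (ht : t ∈ I) (hw : w t ≠ 0) :
    ∑ i ∈ I, (w i : ℂ) * z ^ i ≠ 0 := by
  intro h0
  have hN' : (N : ℤ) ≠ 0 := by omega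
  have h1 := coef N z hN hind sg hsg I w id 0 (by simpa using h0) (t % N).toNat (by
    have h1 := Int.emod_lt_of_pos t (show (0 : ℤ) < N by omega)
    have h2 := Int.emod_nonneg t hN'
    omega)
  rw [Finset.sum_eq_single t] at h1
  · have h2 : w t * sg t = 0 := by
      rw [ite_self] at h1
      exact h1
    rcases mul_eq_zero.1 h2 with h | h
    · exact hw h
    · exact hsg0 t h
  · intro b hb hbt
    exfalso
    apply hbt
    obtain ⟨hb1, hb2⟩ := Finset.mem_filter.1 hb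
    apply hI b hb1 t ht
    have h2 := Int.emod_nonneg t hN'
    have h3 := Int.emod_nonneg b hN'
    have h4 : b % N = t % N := by
      simp only [id] at hb2
      omega
    exact Int.ModEq.dvd (show t ≡ b [ZMOD N] from h4.symm)
  · intro h
    exfalso
    apply h
    rw [Finset.mem_filter]
    exact ⟨ht, rfl⟩

theorem cGRD : GRD := by
  classical
  intro N z hN hz hind T a L hT h0T ha hL0 hL hprod
  by_contra hcon
  push Not at hcon
  obtain ⟨t1, ht1, hLt1⟩ := hcon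
  obtain ⟨tm, htm, hmax⟩ := T.exists_max_image L ⟨t1, ht1⟩
  have hm : 0 < L tm := lt_of_lt_of_le hLt1 (hmax t1 ht1)
  have hN' : (N : ℤ) ≠ 0 := by omega
  choose sg hsg0 hsg using zred N z hN hz
  choose ep hep0 hep using sign_ex
  have hz0 : z ≠ 0 := by
    rintro rfl
    rw [zero_pow (by omega)] at hz
    exact absurd hz (by norm_num)
  -- products
  have hmul : ∀ I : Finset ℤ, (∑ t ∈ I, (a t : ℂ) * z ^ t) * (∑ t ∈ I, (-1 : ℂ) ^ t * (a t : ℂ) * z ^ t) =
      ∑ q ∈ I ×ˢ I, ((a q.1 * (ep q.2 * a q.2) : ℤ) : ℂ) * z ^ (q.1 + q.2) := by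
    intro I
    rw [Finset.sum_mul_sum, ← Finset.sum_product']
    apply Finset.sum_congr rfl
    intro q _
    rw [hep, zpow_add₀ hz0]
    push_cast
    ring
  set T' := T.filter (fun t => L t = L tm) with hT'
  have htot := coef N z hN hind sg hsg (T ×ˢ T) (fun q => a q.1 * (ep q.2 * a q.2)) (fun q => q.1 + q.2) 1 (by
    rw [← hmul, hprod]; simp)
  have hzero : (∑ t ∈ T', (a t : ℂ) * z ^ t) * (∑ t ∈ T', (-1 : ℂ) ^ t * (a t : ℂ) * z ^ t) = 0 := by
    rw [hmul, fib N z hN sg hsg]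
    apply Finset.sum_eq_zero
    intro ρ hρ
    rw [Finset.mem_range] at hρ
    have key : ∑ i ∈ T' ×ˢ T' with ((i.1 + i.2) % (N : ℤ)).toNat = ρ,
        a i.1 * (ep i.2 * a i.2) * sg (i.1 + i.2) = 0 := by
      rcases Finset.eq_empty_or_nonempty ((T' ×ˢ T').filter
        (fun i => ((i.1 + i.2) % (N : ℤ)).toNat = ρ)) with hem | ⟨p, hp⟩
      · rw [hem, Finset.sum_empty]
      · obtain ⟨hp1, hp2⟩ := Finset.mem_filter.1 hp
        obtain ⟨hp3, hp4⟩ := Finset.mem_product.1 hp1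
        obtain ⟨hp5, hp6⟩ := Finset.mem_filter.1 hp3
        obtain ⟨hp7, hp8⟩ := Finset.mem_filter.1 hp4
        have hpair : ∀ i ∈ T ×ˢ T, ((i.1 + i.2) % (N : ℤ)).toNat = ρ → L i.1 + L i.2 = L tm + L tm := by
          intro i hi hi2
          obtain ⟨hi3, hi4⟩ := Finset.mem_product.1 hi
          have h1 := hL i.1 hi3 i.2 hi4 p.1 hp5 p.2 hp7 (by
            have e1 := Int.emod_nonneg (i.1 + i.2) hN'
            have e2 := Int.emod_nonneg (p.1 + p.2) hN'
            have e3 : (p.1 + p.2) % (N : ℤ) = (i.1 + i.2) % (N : ℤ) := by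
              omega
            exact Int.ModEq.dvd (show p.1 + p.2 ≡ i.1 + i.2 [ZMOD N] from e3))
          rw [h1, hp6, hp8]
        have hρ0 : ρ ≠ 0 := by
          intro h0
          have h1 := hpair (0, 0) (Finset.mem_product.2 ⟨h0T, h0T⟩) (by
            rw [h0]; simp)
          simp only [hL0] at h1
          linarith
        have heq : (T' ×ˢ T').filter (fun i => ((i.1 + i.2) % (N : ℤ)).toNat = ρ) =
            (T ×ˢ T).filter (fun i => ((i.1 + i.2) % (N : ℤ)).toNat = ρ) := by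
          ext i
          rw [Finset.mem_filter, Finset.mem_filter, Finset.mem_product, Finset.mem_product, hT',
            Finset.mem_filter, Finset.mem_filter]
          constructor
          · rintro ⟨⟨⟨h1, _⟩, ⟨h2, _⟩⟩, h3⟩
            exact ⟨⟨h1, h2⟩, h3⟩
          · rintro ⟨⟨h1, h2⟩, h3⟩
            have h4 := hpair i (Finset.mem_product.2 ⟨h1, h2⟩) h3
            have h5 := hmax i.1 h1
            have h6 := hmax i.2 h2
            exact ⟨⟨⟨h1, by linarith⟩, ⟨h2, by linarith⟩⟩, h3⟩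
        rw [heq]
        have h7 := htot ρ hρ
        rw [if_neg hρ0] at h7
        exact h7
    rw [key]
    simp
  have hT'd : ∀ t ∈ T', ∀ t' ∈ T', (N : ℤ) ∣ t - t' → t = t' := fun t ht t' ht' h =>
    hT t (Finset.mem_filter.1 ht).1 t' (Finset.mem_filter.1 ht').1 h
  have htm' : tm ∈ T' := Finset.mem_filter.2 ⟨htm, rfl⟩
  have hatm : a tm ≠ 0 := ha tm htm (by
    rintro rfl
    rw [hL0] at hm
    exact lt_irrefl _ hm)
  rcases mul_eq_zero.1 hzero with h | h
  · exact ne_zero_of N z hN hind sg hsg0 hsg T' a hT'd tm htm' hatm h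
  · apply ne_zero_of N z hN hind sg hsg0 hsg T' (fun t => ep t * a t) hT'd tm htm' (mul_ne_zero (hep0 tm) hatm)
    rw [← h]
    apply Finset.sum_congr rfl
    intro t _
    rw [hep]
    push_cast
    ring

end Pool.Agent.Helper2.RF
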